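import Pool.Agent.Helper84.BA.Defs1

/-!
# Project BA, module B25: sealed sequences satisfy the Canjar condition
-/

set_option autoImplicit false

namespace Pool.Agent.Helper94.BA

open Pool.Agent.Helper33.HM

universe u

variable {B : Type u} [CompleteBooleanAlgebra B]

/-- N18b. Sealed sequences satisfy the Canjar condition. -/
theorem canjar_of_seal {h : Ordinal.{0} → ℕ → ℕ → B} (hh : IsScale h) (β : Ordinal.{0})
    (X : ℕ → Finset ℕ → B) (hX0 : ∀ n, X n ∅ = ⊥) {J : Set (ℕ → B)}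
    (hsup : ∀ x ∈ J, ∀ y ∈ J, x ⊔ y ∈ J)
    (hprop : ∀ y ∈ J, ∀ m : ℕ, ⨆ n : ℕ, ⨆ _ : m ≤ n, (y n)ᶜ = ⊤)
    (hseal : ∀ m, ∀ x : ℕ → B, PC x ≤ sealC (h β) (fun n => avoidC (X n)) m → x ∈ J) :
    ∀ y ∈ J, ∀ m : ℕ, ⨆ n : ℕ, ⨆ _ : m ≤ n, ⨆ s : Finset ℕ,
      X n s ⊓ PC yᶜ s ⊓ ltC (h β n) s = ⊤ := by
  intro y hy m
  set L : B := ⨆ n : ℕ, ⨆ _ : m ≤ n, ⨆ s : Finset ℕ, X n s ⊓ PC yᶜ s ⊓ ltC (h β n) s with hL
  have hLle : ∀ n, m ≤ n → ∀ s : Finset ℕ, X n s ⊓ PC yᶜ s ⊓ ltC (h β n) s ≤ L := by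
    intro n hn s
    rw [hL]
    refine le_trans ?_ (le_iSup _ n)
    refine le_trans ?_ (le_iSup _ hn)
    exact le_iSup (fun s : Finset ℕ => X n s ⊓ PC yᶜ s ⊓ ltC (h β n) s) s
  have hmono : ∀ n, Monotone (h β n) := fun n => monotone_nat_of_le_succ ((hh.fn β).mono n)
  let x : ℕ → B := fun k => Lᶜ ⊓ (y k)ᶜ
  have hx : x ∈ J := by
    refine hseal m x ?_
    intro s
    unfold sealC
    refine le_iInf fun n => le_iInf fun hn => le_iInf fun k => ?_
    rw [le_himp_iff]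
    unfold avoidC
    refine le_iInf fun t => le_iInf fun ht => ?_
    rw [le_compl_iff_disjoint_right, disjoint_iff_inf_le]
    rcases t.eq_empty_or_nonempty with rfl | ⟨i₀, hi₀⟩
    · rw [hX0 n, inf_bot_eq]
    · have h1 : PC x s ≤ Lᶜ := by
        have hi : i₀ ∈ s := (Finset.mem_filter.1 (ht hi₀)).1
        refine le_trans (iInf_le _ i₀) (le_trans (iInf_le _ hi) ?_)
        exact inf_le_left
      have h2 : PC x s ≤ PC yᶜ t := by
        unfold PC
        refine le_iInf fun i => le_iInf fun hit => ?_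
        have hi : i ∈ s := (Finset.mem_filter.1 (ht hit)).1
        refine le_trans (iInf_le _ i) (le_trans (iInf_le _ hi) ?_)
        exact inf_le_right
      have h3 : (h β n k)ᶜ ≤ ltC (h β n) t := by
        unfold ltC
        refine le_iInf fun i => le_iInf fun hit => ?_
        have hik : i ≤ k := (Finset.mem_filter.1 (ht hit)).2
        exact compl_le_compl (hmono n hik)
      have h4 : PC x s ⊓ (h β n k)ᶜ ⊓ X n t ≤ L := by
        refine le_trans ?_ (hLle n hn t)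
        refine le_inf (le_inf inf_le_right ?_) ?_
        · exact le_trans inf_le_left (le_trans inf_le_left h2)
        · exact le_trans inf_le_left (le_trans inf_le_right h3)
      have h5 : PC x s ⊓ (h β n k)ᶜ ⊓ X n t ≤ Lᶜ :=
        le_trans inf_le_left (le_trans inf_le_left h1)
      calc PC x s ⊓ (h β n k)ᶜ ⊓ X n t ≤ L ⊓ Lᶜ := le_inf h4 h5
        _ = ⊥ := inf_compl_eq_bot
  have hxy := hprop (x ⊔ y) (hsup x hx y hy) 0
  rw [eq_top_iff, ← hxy]
  refine iSup_le fun n => iSup_le fun _ => ?_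
  have : (x ⊔ y) n = (Lᶜ ⊓ (y n)ᶜ) ⊔ y n := rfl
  rw [this, sup_inf_right, compl_sup_eq_top, inf_top_eq, compl_sup, compl_compl]
  exact inf_le_left

end Pool.Agent.Helper94.BA
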